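import Mathlib
import Pool.Agent.D0H69.JT.Stm

/-! Project JT, module BON: Bonferroni assembly. -/

set_option autoImplicit false
set_option linter.unusedVariables false
set_option linter.unusedSectionVars false

open scoped Classical

namespace Pool.Agent.D0H22.JT

namespace Bon

open Finset
open Pool.Agent.D0H69.JT

section E
variable {α : Type}

noncomputable def E (s : Finset α) (f : α → ℝ) : ℝ := (∑ S ∈ s, f S) / s.card

lemma E_add (s : Finset α) (f g : α → ℝ) : E s (fun S => f S + g S) = E s f + E s g := by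
  simp only [E, sum_add_distrib, add_div]

lemma E_sub (s : Finset α) (f g : α → ℝ) : E s (fun S => f S - g S) = E s f - E s g := by
  simp only [E, sum_sub_distrib, sub_div]

lemma E_mul (s : Finset α) (c : ℝ) (f : α → ℝ) : E s (fun S => c * f S) = c * E s f := by
  simp only [E, ← mul_sum, mul_div_assoc]

lemma E_sum (s : Finset α) {β : Type} (t : Finset β) (f : β → α → ℝ) :
    E s (fun S => ∑ b ∈ t, f b S) = ∑ b ∈ t, E s (f b) := by
  simp only [E]
  rw [sum_comm, sum_div]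

lemma E_mono (s : Finset α) (f g : α → ℝ) (h : ∀ S ∈ s, f S ≤ g S) : E s f ≤ E s g := by
  unfold E
  exact div_le_div_of_nonneg_right (sum_le_sum h) (by positivity)

lemma E_abs (s : Finset α) (f : α → ℝ) : |E s f| ≤ E s (fun S => |f S|) := by
  unfold E
  rw [abs_div, Nat.abs_cast]
  exact div_le_div_of_nonneg_right (abs_sum_le_sum_abs _ _) (by positivity)

lemma E_const (s : Finset α) (hs : 0 < s.card) (c : ℝ) : E s (fun _ => c) = c := by
  unfold E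
  rw [sum_const, nsmul_eq_mul]
  field_simp

lemma E_cs (s : Finset α) (f g : α → ℝ) :
    E s (fun S => f S * g S) ≤ √(E s fun S => f S ^ 2) * √(E s fun S => g S ^ 2) := by
  unfold E
  rw [Real.sqrt_div' _ (by positivity), Real.sqrt_div' _ (by positivity), div_mul_div_comm,
    Real.mul_self_sqrt (by positivity)]
  exact div_le_div_of_nonneg_right (Real.sum_mul_le_sqrt_mul_sqrt _ _ _) (by positivity)

end E

noncomputable def cc (k : ℕ) : ℝ := 1 / ∏ i ∈ range k, (3 ^ (i + 1) - 1 : ℝ)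

lemma den_one (k : ℕ) : 1 ≤ ∏ i ∈ range k, (3 ^ (i + 1) - 1 : ℝ) := by
  induction k with
  | zero => simp
  | succ k ih =>
    rw [prod_range_succ]
    have h : (1 : ℝ) ≤ 3 ^ (k + 1) - 1 := by
      have : (1 : ℝ) ≤ 3 ^ k := one_le_pow₀ (by norm_num)
      rw [pow_succ]; linarith
    exact one_le_mul_of_one_le_of_one_le ih h

lemma cc_nonneg (k : ℕ) : 0 ≤ cc k := by
  have := den_one k
  unfold cc; positivity

lemma cc_le (k : ℕ) : cc k ≤ 1 := by
  have := den_one k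
  unfold cc
  rw [div_le_one (by linarith)]
  exact this

lemma hh_eq (k : ℕ) (Y : ℝ) : hh k Y = cc k * ∏ i ∈ range k, (Y - 3 ^ i) := by
  unfold hh cc
  rw [prod_div_distrib]; ring

lemma hh_zero (Y : ℝ) : hh 0 Y = 1 := by simp [hh]

variable {κ ι : Type} [Fintype κ] [Fintype ι] [DecidableEq ι]

noncomputable def nj (P : κ → Submodule (ZMod 3) (X ι)) (n : κ → ℕ) (S : Matrix ι ι (ZMod 3)) : ℝ :=
  ((JJ P n S).ncard : ℝ)

noncomputable def ind (P : κ → Submodule (ZMod 3) (X ι)) (S : Matrix ι ι (ZMod 3)) : ℝ :=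
  if ∀ j, ∀ x ∈ P j, Gr S x → x = 0 then 1 else 0

noncomputable def bx (κ : Type) [Fintype κ] (K : ℕ) : Finset (κ → ℕ) :=
  Fintype.piFinset fun _ => range (K + 1)

noncomputable def GG (K : ℕ) (P : κ → Submodule (ZMod 3) (X ι)) (S : Matrix ι ι (ZMod 3)) : ℝ :=
  ∑ n ∈ bx κ K, (∏ j, ((-1) ^ (n j) * cc (n j))) * nj P n S

noncomputable def TT (K : ℕ) (j i : κ) : Finset ℕ := if i = j then {K + 1} else range (K + 1)

noncomputable def HH (K : ℕ) (P : κ → Submodule (ZMod 3) (X ι)) (S : Matrix ι ι (ZMod 3)) : ℝ :=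
  ∑ j, ∑ n ∈ Fintype.piFinset (TT K j), (∏ i, cc (n i)) * nj P n S

noncomputable def RR (K : ℕ) (P : κ → Submodule (ZMod 3) (X ι)) (S : Matrix ι ι (ZMod 3)) : ℝ :=
  1 + ∑ n ∈ bx κ K, nj P n S

lemma nj_nonneg (P : κ → Submodule (ZMod 3) (X ι)) (n : κ → ℕ) (S : Matrix ι ι (ZMod 3)) :
    0 ≤ nj P n S := by unfold nj; positivity

lemma ccn_nonneg (n : κ → ℕ) : 0 ≤ ∏ i, cc (n i) := prod_nonneg fun i _ => cc_nonneg _

lemma ccn_le (n : κ → ℕ) : ∏ i, cc (n i) ≤ 1 :=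
  prod_le_one (fun i _ => cc_nonneg _) fun i _ => cc_le _

lemma HH_nonneg (K : ℕ) (P : κ → Submodule (ZMod 3) (X ι)) (S : Matrix ι ι (ZMod 3)) :
    0 ≤ HH K P S :=
  sum_nonneg fun j _ => sum_nonneg fun n _ => mul_nonneg (ccn_nonneg n) (nj_nonneg _ _ _)

lemma RR_nonneg (K : ℕ) (P : κ → Submodule (ZMod 3) (X ι)) (S : Matrix ι ι (ZMod 3)) :
    0 ≤ RR K P S :=
  add_nonneg zero_le_one (sum_nonneg fun n _ => nj_nonneg _ _ _)

lemma nj_good (hG : S_GOOD) (P : κ → Submodule (ZMod 3) (X ι)) (n : κ → ℕ)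
    (S : Matrix ι ι (ZMod 3)) (hS : ¬ Rel P S) :
    (∏ i, cc (n i)) * nj P n S = ∏ i, hh (n i) (kk (P i) S) := by
  unfold nj
  rw [hG κ ι P n S hS, ← prod_mul_distrib]
  exact prod_congr rfl fun i _ => (hh_eq _ _).symm

/-- sum over a box of the products -/
lemma box (T : κ → Finset ℕ) (f : κ → ℕ → ℝ) :
    ∑ n ∈ Fintype.piFinset T, ∏ i, f i (n i) = ∏ i, ∑ k ∈ T i, f i k :=
  (prod_univ_sum T f).symm

lemma GG_good (hG : S_GOOD) (K : ℕ) (P : κ → Submodule (ZMod 3) (X ι))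
    (S : Matrix ι ι (ZMod 3)) (hS : ¬ Rel P S) :
    GG K P S = ∏ j, ∑ k ∈ range (K + 1), (-1 : ℝ) ^ k * hh k (kk (P j) S) := by
  rw [← box (fun _ => range (K + 1)) fun j k => (-1 : ℝ) ^ k * hh k (kk (P j) S)]
  unfold GG bx
  refine sum_congr rfl fun n _ => ?_
  rw [prod_mul_distrib, prod_mul_distrib, mul_assoc, nj_good hG P n S hS]

lemma HH_good (hG : S_GOOD) (K : ℕ) (P : κ → Submodule (ZMod 3) (X ι))
    (S : Matrix ι ι (ZMod 3)) (hS : ¬ Rel P S) :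
    HH K P S = ∑ j, hh (K + 1) (kk (P j) S) *
      ∏ i ∈ univ.erase j, ∑ k ∈ range (K + 1), hh k (kk (P i) S) := by
  unfold HH
  refine sum_congr rfl fun j _ => ?_
  rw [sum_congr rfl fun n _ => nj_good hG P n S hS, box (TT K j) fun i k => hh k (kk (P i) S),
    ← mul_prod_erase univ _ (mem_univ j)]
  congr 1
  · simp [TT]
  · refine prod_congr rfl fun i hi => ?_
    rw [TT, if_neg (mem_erase.1 hi).1]

lemma ind_eq (hK : S_KPOW) (P : κ → Submodule (ZMod 3) (X ι)) (S : Matrix ι ι (ZMod 3)) :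
    ind P S = ∏ j, (if kk (P j) S = 1 then (1 : ℝ) else 0) := by
  unfold ind
  by_cases h : ∀ j, ∀ x ∈ P j, Gr S x → x = 0
  · rw [if_pos h, prod_eq_one]
    intro j _
    rw [if_pos (((hK ι S).1 (P j)).2.2 (h j))]
  · rw [if_neg h]
    push Not at h
    obtain ⟨j, x, hx, hxS, hx0⟩ := h
    symm
    apply prod_eq_zero (mem_univ j)
    rw [if_neg]
    intro h1
    exact hx0 (((hK ι S).1 (P j)).2.1 h1 x hx hxS)

lemma notrel (hG : S_GOOD) (hK : S_KPOW) (hA : S_ALG) (K : ℕ)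
    (P : κ → Submodule (ZMod 3) (X ι)) (S : Matrix ι ι (ZMod 3)) (hS : ¬ Rel P S) :
    |ind P S - GG K P S| ≤ HH K P S := by
  rw [ind_eq hK, GG_good hG K P S hS, HH_good hG K P S hS]
  obtain ⟨h1, h2, h3, h4⟩ := hA
  have hpow : ∀ j, ∃ e : ℕ, (kk (P j) S : ℝ) = 3 ^ e := by
    intro j
    obtain ⟨e, he⟩ := ((hK ι S).1 (P j)).1
    exact ⟨e, by rw [he]; push_cast; rfl⟩
  have hnn : ∀ j k, 0 ≤ hh k (kk (P j) S) := by
    intro j k
    obtain ⟨e, he⟩ := hpow j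
    rw [he]; exact h1 k e
  apply h4 κ (fun j => if kk (P j) S = 1 then (1 : ℝ) else 0)
    (fun j => ∑ k ∈ range (K + 1), (-1 : ℝ) ^ k * hh k (kk (P j) S))
    (fun j => hh (K + 1) (kk (P j) S)) (fun j => ∑ k ∈ range (K + 1), hh k (kk (P j) S))
  · intro j
    by_cases h : kk (P j) S = 1 <;> simp [h]
  · intro j
    refine (abs_sum_le_sum_abs _ _).trans (sum_le_sum fun k _ => ?_)
    rw [abs_mul, abs_pow, abs_neg, abs_one, one_pow, one_mul, abs_of_nonneg (hnn j k)]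
  · intro j
    calc (1 : ℝ) = hh 0 (kk (P j) S) := (hh_zero _).symm
      _ ≤ _ := single_le_sum (f := fun k => hh k (kk (P j) S)) (fun k _ => hnn j k)
        (mem_range.2 (Nat.succ_pos K))
  · intro j
    obtain ⟨e, he⟩ := hpow j
    have h5 := h2 K e
    rw [← he] at h5
    have : (if kk (P j) S = 1 then (1 : ℝ) else 0) = if e = 0 then 1 else 0 := by
      have h6 : kk (P j) S = 1 ↔ e = 0 := by
        have h7 : kk (P j) S = 3 ^ e := by exact_mod_cast he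
        rw [h7]
        constructor
        · intro h
          by_contra h8
          have : 1 < 3 ^ e := Nat.one_lt_pow h8 (by norm_num)
          omega
        · rintro rfl; rfl
      by_cases h : e = 0
      · rw [if_pos h, if_pos (h6.2 h)]
      · rw [if_neg h, if_neg fun h' => h (h6.1 h')]
    rw [this]
    exact h5

lemma abs_GG (K : ℕ) (P : κ → Submodule (ZMod 3) (X ι)) (S : Matrix ι ι (ZMod 3)) :
    |ind P S - GG K P S| ≤ RR K P S := by
  have h1 : |ind P S| ≤ 1 := by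
    unfold ind
    split_ifs <;> simp
  have h2 : |GG K P S| ≤ ∑ n ∈ bx κ K, nj P n S := by
    refine (abs_sum_le_sum_abs _ _).trans (sum_le_sum fun n _ => ?_)
    rw [abs_mul, abs_of_nonneg (nj_nonneg P n S)]
    have h3 : |∏ j, ((-1 : ℝ) ^ (n j) * cc (n j))| ≤ 1 := by
      rw [abs_prod]
      refine prod_le_one (fun i _ => abs_nonneg _) fun i _ => ?_
      rw [abs_mul, abs_pow, abs_neg, abs_one, one_pow, one_mul, abs_of_nonneg (cc_nonneg _)]
      exact cc_le _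
    calc _ ≤ 1 * nj P n S := mul_le_mul_of_nonneg_right h3 (nj_nonneg P n S)
      _ = _ := one_mul _
  calc |ind P S - GG K P S| ≤ |ind P S| + |GG K P S| := abs_sub _ _
    _ ≤ _ := add_le_add h1 h2

lemma all (hG : S_GOOD) (hK : S_KPOW) (hA : S_ALG) (K : ℕ)
    (P : κ → Submodule (ZMod 3) (X ι)) (S : Matrix ι ι (ZMod 3)) :
    |ind P S - GG K P S| ≤ HH K P S + (if Rel P S then 1 else 0) * RR K P S := by
  by_cases h : Rel P S
  · rw [if_pos h, one_mul]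
    linarith [abs_GG K P S, HH_nonneg K P S]
  · rw [if_neg h, zero_mul, add_zero]
    exact notrel hG hK hA K P S h

lemma prod_le_sum {β : Type} [Fintype β] (a : β → ℝ) (ha : ∀ j, 0 ≤ a j) :
    ∏ j, a j ≤ 1 + ∑ j, a j ^ Fintype.card β := by
  rcases isEmpty_or_nonempty β with h | h
  · simp
  · obtain ⟨j₀, _, hj₀⟩ := exists_max_image (univ : Finset β) a univ_nonempty
    have h1 : ∏ j, a j ≤ a j₀ ^ Fintype.card β := by
      calc ∏ j, a j ≤ ∏ _j : β, a j₀ := prod_le_prod (fun j _ => ha j) fun j _ => hj₀ j (mem_univ j)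
        _ = _ := by simp
    have h2 : a j₀ ^ Fintype.card β ≤ ∑ j, a j ^ Fintype.card β :=
      single_le_sum (f := fun j => a j ^ Fintype.card β) (fun j _ => pow_nonneg (ha j) _) (mem_univ _)
    linarith

lemma RR_sq (hK : S_KPOW) (K : ℕ) (P : κ → Submodule (ZMod 3) (X ι)) (S : Matrix ι ι (ZMod 3)) :
    RR K P S ^ 2 ≤ (1 + (K + 1 : ℝ) ^ Fintype.card κ) ^ 2 *
      (1 + ∑ j, (kk (P j) S : ℝ) ^ (2 * K * Fintype.card κ)) := by
  have h1 : ∀ j, (1 : ℝ) ≤ kk (P j) S := by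
    intro j
    obtain ⟨e, he⟩ := ((hK ι S).1 (P j)).1
    rw [he]; push_cast
    exact one_le_pow₀ (by norm_num)
  have h2 : ∀ n ∈ bx κ K, nj P n S ≤ ∏ j, (kk (P j) S : ℝ) ^ K := by
    intro n hn
    have h3 : nj P n S ≤ ∏ j, (kk (P j) S : ℝ) ^ n j := by
      unfold nj
      exact_mod_cast (hK ι S).2 κ P n
    refine h3.trans (prod_le_prod (fun j _ => by positivity) fun j _ => ?_)
    apply pow_le_pow_right₀ (h1 j)
    have := Fintype.mem_piFinset.1 hn j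
    exact Nat.lt_succ_iff.1 (mem_range.1 this)
  have h4 : (1 : ℝ) ≤ ∏ j, (kk (P j) S : ℝ) ^ K := by
    calc (1 : ℝ) = ∏ _j : κ, 1 := by simp
      _ ≤ _ := prod_le_prod (fun _ _ => zero_le_one) fun j _ => one_le_pow₀ (h1 j)
  have h5 : RR K P S ≤ (1 + (K + 1 : ℝ) ^ Fintype.card κ) * ∏ j, (kk (P j) S : ℝ) ^ K := by
    unfold RR
    have h6 : ∑ n ∈ bx κ K, nj P n S ≤ (K + 1 : ℝ) ^ Fintype.card κ * ∏ j, (kk (P j) S : ℝ) ^ K := by
      refine (sum_le_card_nsmul _ _ _ h2).trans ?_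
      rw [nsmul_eq_mul]
      unfold bx
      simp [Fintype.card_piFinset]
    nlinarith
  calc RR K P S ^ 2 ≤ ((1 + (K + 1 : ℝ) ^ Fintype.card κ) * ∏ j, (kk (P j) S : ℝ) ^ K) ^ 2 :=
        pow_le_pow_left₀ (RR_nonneg _ _ _) h5 2
    _ = (1 + (K + 1 : ℝ) ^ Fintype.card κ) ^ 2 * ∏ j, (kk (P j) S : ℝ) ^ (2 * K) := by
        rw [mul_pow, ← prod_pow]
        congr 1
        refine prod_congr rfl fun j _ => ?_
        rw [← pow_mul, mul_comm K 2]
    _ ≤ _ := by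
        apply mul_le_mul_of_nonneg_left _ (by positivity)
        have := prod_le_sum (fun j => (kk (P j) S : ℝ) ^ (2 * K)) fun j => by positivity
        simpa [← pow_mul] using this

lemma Sy_card (ι : Type) [Fintype ι] [DecidableEq ι] : 0 < (Sy ι).card := by
  apply card_pos.2
  exact ⟨0, mem_filter.2 ⟨mem_univ _, Matrix.transpose_zero⟩⟩

lemma Pr_eq (P : κ → Submodule (ZMod 3) (X ι)) : Pr P = E (Sy ι) (ind P) := by
  unfold Pr E ind
  congr 1
  rw [card_filter]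
  push_cast
  rfl

/-- the geometric sum -/
lemma geom (K : ℕ) : ∑ k ∈ range (K + 1), (1 / 2 : ℝ) ^ k ≤ 2 := by
  rw [geom_sum_eq (by norm_num)]
  have : (0 : ℝ) < (1 / 2) ^ (K + 1) := by positivity
  generalize (1 / 2 : ℝ) ^ (K + 1) = x at *
  have h : (x - 1) / (1 / 2 - 1) = 2 - 2 * x := by ring
  linarith

/-- the constant in the moments -/
noncomputable def cm (n : κ → ℕ) : ℝ := 3 ^ (∑ j, n j).choose 2 * (3 ^ (∑ j, n j) + 1)

lemma cm_nonneg (n : κ → ℕ) : 0 ≤ cm n := by unfold cm; positivity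

lemma mom (h1 : S_L1) (h2 : S_COMP) (h3 : S_IND) (hM : S_MOM) {δ : ℝ} (hδ : 0 ≤ δ)
    (P : κ → Submodule (ZMod 3) (X ι)) (hP : Hyp δ P) (n : κ → ℕ) :
    |E (Sy ι) (nj P n) - 3 ^ (∑ j, (n j).choose 2)| ≤ cm n * δ :=
  hM h1 h2 h3 κ ι δ P n hδ hP

lemma EH (h1 : S_L1) (h2 : S_COMP) (h3 : S_IND) (hM : S_MOM) (hA : S_ALG) (K : ℕ) {δ : ℝ}
    (hδ : 0 ≤ δ) (P : κ → Submodule (ZMod 3) (X ι)) (hP : Hyp δ P) :
    E (Sy ι) (HH K P) ≤ Fintype.card κ * 2 ^ Fintype.card κ * (1 / 2 : ℝ) ^ (K + 1) +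
      (∑ j : κ, ∑ n ∈ Fintype.piFinset (TT K j), cm n) * δ := by
  unfold HH
  rw [E_sum, sum_mul]
  have h4 : ∀ j : κ, E (Sy ι) (fun S => ∑ n ∈ Fintype.piFinset (TT K j),
      (∏ i, cc (n i)) * nj P n S) ≤ 2 ^ Fintype.card κ * (1 / 2 : ℝ) ^ (K + 1) +
      (∑ n ∈ Fintype.piFinset (TT K j), cm n) * δ := by
    intro j
    rw [E_sum]
    have h5 : ∀ n ∈ Fintype.piFinset (TT K j), E (Sy ι) (fun S => (∏ i, cc (n i)) * nj P n S) ≤
        (∏ i, (1 / 2 : ℝ) ^ (n i)) + cm n * δ := by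
      intro n _
      rw [E_mul]
      have h6 := (abs_le.1 (mom h1 h2 h3 hM hδ P hP n)).2
      have h7 : E (Sy ι) (nj P n) ≤ 3 ^ (∑ j, (n j).choose 2) + cm n * δ := by linarith
      have h8 : (∏ i, cc (n i)) * (3 : ℝ) ^ (∑ j, (n j).choose 2) ≤ ∏ i, (1 / 2 : ℝ) ^ (n i) := by
        rw [← prod_pow_eq_pow_sum, ← prod_mul_distrib]
        refine prod_le_prod (fun i _ => mul_nonneg (cc_nonneg _) (by positivity)) fun i _ => ?_
        have := hA.2.2.1 (n i)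
        unfold cc
        calc _ = (3 : ℝ) ^ (n i).choose 2 / ∏ i ∈ range (n i), (3 ^ (i + 1) - 1 : ℝ) := by ring
          _ ≤ _ := this
      calc (∏ i, cc (n i)) * E (Sy ι) (nj P n)
          ≤ (∏ i, cc (n i)) * (3 ^ (∑ j, (n j).choose 2) + cm n * δ) :=
            mul_le_mul_of_nonneg_left h7 (ccn_nonneg n)
        _ = (∏ i, cc (n i)) * (3 : ℝ) ^ (∑ j, (n j).choose 2) + (∏ i, cc (n i)) * (cm n * δ) := by
            ring
        _ ≤ (∏ i, (1 / 2 : ℝ) ^ (n i)) + 1 * (cm n * δ) :=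
            add_le_add h8 (mul_le_mul_of_nonneg_right (ccn_le n) (mul_nonneg (cm_nonneg n) hδ))
        _ = _ := by rw [one_mul]
    refine (sum_le_sum h5).trans ?_
    rw [sum_add_distrib, ← sum_mul, box (TT K j) fun _ k => (1 / 2 : ℝ) ^ k]
    gcongr
    rw [← mul_prod_erase univ _ (mem_univ j)]
    have h9 : ∏ i ∈ univ.erase j, ∑ k ∈ TT K j i, (1 / 2 : ℝ) ^ k ≤ 2 ^ Fintype.card κ := by
      calc ∏ i ∈ univ.erase j, ∑ k ∈ TT K j i, (1 / 2 : ℝ) ^ k ≤ ∏ i ∈ univ.erase j, (2 : ℝ) := by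
            refine prod_le_prod (fun i _ => sum_nonneg fun k _ => by positivity) fun i hi => ?_
            rw [TT, if_neg (mem_erase.1 hi).1]
            exact geom K
        _ = 2 ^ (univ.erase j).card := by simp
        _ ≤ 2 ^ Fintype.card κ := pow_le_pow_right₀ (by norm_num)
            (card_le_univ _)
    have h10 : ∑ k ∈ TT K j j, (1 / 2 : ℝ) ^ k = (1 / 2) ^ (K + 1) := by simp [TT]
    rw [h10, mul_comm]
    gcongr
  calc ∑ j : κ, E (Sy ι) (fun S => ∑ n ∈ Fintype.piFinset (TT K j), (∏ i, cc (n i)) * nj P n S)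
      ≤ ∑ j : κ, (2 ^ Fintype.card κ * (1 / 2 : ℝ) ^ (K + 1) +
      (∑ n ∈ Fintype.piFinset (TT K j), cm n) * δ) := sum_le_sum fun j _ => h4 j
    _ = _ := by
      rw [sum_add_distrib, sum_const, nsmul_eq_mul, card_univ]; ring

lemma EG (h1 : S_L1) (h2 : S_COMP) (h3 : S_IND) (hM : S_MOM) (K : ℕ) {δ : ℝ}
    (hδ : 0 ≤ δ) (P : κ → Submodule (ZMod 3) (X ι)) (hP : Hyp δ P) :
    |E (Sy ι) (GG K P) - ph K ^ Fintype.card κ| ≤ (∑ n ∈ bx κ K, cm n) * δ := by
  have h4 : ph K ^ Fintype.card κ = ∑ n ∈ bx κ K, (∏ j, ((-1 : ℝ) ^ (n j) * cc (n j))) *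
      3 ^ (∑ j, (n j).choose 2) := by
    have : ph K = ∑ k ∈ range (K + 1), (-1 : ℝ) ^ k * cc k * 3 ^ k.choose 2 := by
      unfold ph cc
      refine sum_congr rfl fun k _ => by ring
    rw [this]
    have h5 := box (κ := κ) (fun _ => range (K + 1)) fun _ k => (-1 : ℝ) ^ k * cc k * 3 ^ k.choose 2
    rw [prod_const, card_univ] at h5
    rw [← h5]
    unfold bx
    refine sum_congr rfl fun n _ => ?_
    rw [prod_mul_distrib, prod_pow_eq_pow_sum]
  unfold GG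
  rw [h4, E_sum, ← sum_sub_distrib, sum_mul]
  refine (abs_sum_le_sum_abs _ _).trans (sum_le_sum fun n _ => ?_)
  rw [E_mul, ← mul_sub, abs_mul]
  have h3' : |∏ j, ((-1 : ℝ) ^ (n j) * cc (n j))| ≤ 1 := by
    rw [abs_prod]
    refine prod_le_one (fun i _ => abs_nonneg _) fun i _ => ?_
    rw [abs_mul, abs_pow, abs_neg, abs_one, one_pow, one_mul, abs_of_nonneg (cc_nonneg _)]
    exact cc_le _
  calc _ ≤ 1 * (cm n * δ) := mul_le_mul h3' (mom h1 h2 h3 hM hδ P hP n) (abs_nonneg _) zero_le_one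
    _ = _ := one_mul _

end Bon

open Finset Pool.Agent.D0H69.JT Bon in
theorem t_BON : S_BON := by
  intro h1 h2 h3 hM hR hG hK hS hA κ _ K
  obtain ⟨CR, hCR, hR'⟩ := hR h1 κ
  obtain ⟨CS, hCS, hS'⟩ := hS h1 (2 * K * Fintype.card κ)
  obtain ⟨C1, hC1⟩ : ∃ C : ℝ, C = ∑ j : κ, ∑ n ∈ Fintype.piFinset (TT K j), cm n := ⟨_, rfl⟩
  obtain ⟨C2, hC2⟩ : ∃ C : ℝ, C = ∑ n ∈ bx κ K, cm n := ⟨_, rfl⟩
  obtain ⟨C3, hC3⟩ : ∃ C : ℝ, C = (1 + (K + 1 : ℝ) ^ Fintype.card κ) ^ 2 *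
    (1 + Fintype.card κ * CS) := ⟨_, rfl⟩
  have hC1' : 0 ≤ C1 := by
    rw [hC1]; exact sum_nonneg fun j _ => sum_nonneg fun n _ => cm_nonneg n
  have hC2' : 0 ≤ C2 := by
    rw [hC2]; exact sum_nonneg fun n _ => cm_nonneg n
  have hC3' : 0 ≤ C3 := by
    rw [hC3]; positivity
  refine ⟨C1 + C2 + √CR * √C3,
    add_nonneg (add_nonneg hC1' hC2') (mul_nonneg (Real.sqrt_nonneg _) (Real.sqrt_nonneg _)), ?_⟩
  intro ι _ _ δ P hδ hδ1 hP
  have hc := Sy_card ι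
  have hR2 : E (Sy ι) (fun S => (if Rel P S then (1 : ℝ) else 0) * RR K P S) ≤ √CR * √C3 * √δ := by
    refine (E_cs _ _ _).trans ?_
    have h4 : E (Sy ι) (fun S => (if Rel P S then (1 : ℝ) else 0) ^ 2) ≤ CR * δ := by
      have h5 := hR' ι δ P hδ hP
      have h6 : E (Sy ι) (fun S => (if Rel P S then (1 : ℝ) else 0) ^ 2) =
          (((Sy ι).filter fun S => Rel P S).card : ℝ) / (Sy ι).card := by
        unfold E
        rw [card_filter]
        push_cast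
        congr 1
        refine sum_congr rfl fun S _ => ?_
        split_ifs <;> simp
      rw [h6]; exact h5
    have h5 : E (Sy ι) (fun S => RR K P S ^ 2) ≤ C3 := by
      refine (E_mono _ _ _ fun S _ => RR_sq hK K P S).trans ?_
      rw [E_mul, E_add, E_const _ hc, E_sum, hC3]
      gcongr
      calc ∑ j, E (Sy ι) (fun S => (kk (P j) S : ℝ) ^ (2 * K * Fintype.card κ)) ≤ ∑ _j : κ, CS :=
            sum_le_sum fun j _ => hS' ι (P j) (hP.lag j)
        _ = _ := by simp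
    calc √(E (Sy ι) fun S => (if Rel P S then (1 : ℝ) else 0) ^ 2) * √(E (Sy ι) fun S => RR K P S ^ 2)
        ≤ √(CR * δ) * √C3 := mul_le_mul (Real.sqrt_le_sqrt h4) (Real.sqrt_le_sqrt h5)
          (Real.sqrt_nonneg _) (Real.sqrt_nonneg _)
      _ = _ := by rw [Real.sqrt_mul hCR]; ring
  have hE1 : |E (Sy ι) (ind P) - E (Sy ι) (GG K P)| ≤ E (Sy ι) (HH K P) +
      E (Sy ι) (fun S => (if Rel P S then (1 : ℝ) else 0) * RR K P S) := by
    rw [← E_sub, ← E_add]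
    exact (E_abs _ _).trans (E_mono _ _ _ fun S _ => all hG hK hA K P S)
  have hE2 := EH h1 h2 h3 hM hA K hδ P hP
  have hE3 := EG h1 h2 h3 hM K hδ P hP
  rw [← hC1] at hE2
  rw [← hC2] at hE3
  have hsq : δ ≤ √δ := by
    apply Real.le_sqrt_of_sq_le
    nlinarith
  rw [Pr_eq]
  have h6 : |E (Sy ι) (ind P) - ph K ^ Fintype.card κ| ≤
      |E (Sy ι) (ind P) - E (Sy ι) (GG K P)| + |E (Sy ι) (GG K P) - ph K ^ Fintype.card κ| :=
    abs_sub_le _ _ _
  have h7 : C1 * δ ≤ C1 * √δ := mul_le_mul_of_nonneg_left hsq hC1'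
  have h8 : C2 * δ ≤ C2 * √δ := mul_le_mul_of_nonneg_left hsq hC2'
  have h9 : (C1 + C2 + √CR * √C3) * √δ = C1 * √δ + C2 * √δ + √CR * √C3 * √δ := by ring
  rw [h9]
  linarith

end Pool.Agent.D0H22.JT
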