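import Pool.Agent.D0H22.JT.L1

/-!
# JT-COMP: the proportion of the compatible tuples (character sums)

Author: helper22 (statement and proof: helper69).
-/

set_option autoImplicit false

open scoped Classical

namespace Pool.Agent.D0H22.JT

open Finset Matrix Pool.Agent.D0H69.JT

/-- the additive character -/
noncomputable def EE : AddChar (ZMod 3) ℂ := ZMod.stdAddChar

theorem EE_ne {t : ZMod 3} (ht : t ≠ 0) : EE t ≠ 1 := by
  intro h
  apply ht
  have h1 : EE t = EE 0 := by rw [h, AddChar.map_zero_eq_one]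
  exact ZMod.injective_stdAddChar h1

theorem EE_sum {α : Type} (s : Finset α) (f : α → ZMod 3) :
    EE (∑ i ∈ s, f i) = ∏ i ∈ s, EE (f i) := by
  induction s using Finset.induction_on with
  | empty => simp [AddChar.map_zero_eq_one]
  | insert a s ha ih => rw [sum_insert ha, prod_insert ha, AddChar.map_add_eq_mul, ih]

theorem EE_norm (t : ZMod 3) : ‖EE t‖ = 1 := by
  have h1 : EE t ^ 3 = 1 := by
    rw [← AddChar.map_nsmul_eq_pow]
    have : (3 : ℕ) • t = 0 := by
      rw [nsmul_eq_mul]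
      have : ((3 : ℕ) : ZMod 3) = 0 := by decide
      rw [this, zero_mul]
    rw [this, AddChar.map_zero_eq_one]
  have h2 : ‖EE t‖ ^ 3 = 1 := by rw [← norm_pow, h1, norm_one]
  exact (pow_eq_one_iff_of_nonneg (norm_nonneg _) (by norm_num)).1 h2

section
variable {ι : Type} [Fintype ι]

/-- the symplectic form -/
def om : X ι →ₗ[ZMod 3] X ι →ₗ[ZMod 3] ZMod 3 :=
  LinearMap.mk₂ (ZMod 3) (fun x y => x.1 ⬝ᵥ y.2 - y.1 ⬝ᵥ x.2)
    (by intro x x' y; simp only [Prod.fst_add, Prod.snd_add, add_dotProduct, dotProduct_add]; ring)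
    (by intro c x y; simp only [Prod.smul_fst, Prod.smul_snd, smul_dotProduct, dotProduct_smul,
          smul_eq_mul]; ring)
    (by intro x y y'; simp only [Prod.fst_add, Prod.snd_add, add_dotProduct, dotProduct_add]; ring)
    (by intro c x y; simp only [Prod.smul_fst, Prod.smul_snd, smul_dotProduct, dotProduct_smul,
          smul_eq_mul]; ring)

theorem om_apply (x y : X ι) : om x y = x.1 ⬝ᵥ y.2 - y.1 ⬝ᵥ x.2 := rfl

theorem om_swap (x y : X ι) : om x y = -om y x := by
  rw [om_apply, om_apply]; ring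

theorem om_nondeg (x : X ι) (h : ∀ y, om x y = 0) : x = 0 := by
  ext k
  · have h1 := h (0, Pi.single k 1)
    rw [om_apply] at h1
    simpa using h1
  · have h1 := h (Pi.single k 1, 0)
    rw [om_apply] at h1
    simpa using h1
end

theorem shift {A M : Type} [AddCommGroup A] [AddCommMonoid M] (T : Finset A) (t : A)
    (ht : ∀ x, x + t ∈ T ↔ x ∈ T) (g : A → M) : ∑ x ∈ T, g (x + t) = ∑ x ∈ T, g x := by
  refine sum_nbij' (fun x => x + t) (fun x => x - t) ?_ ?_ ?_ ?_ ?_
  · intro x hx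
    exact (ht x).2 hx
  · intro x hx
    rw [← ht, sub_add_cancel]
    exact hx
  · intro x _
    exact add_sub_cancel_right x t
  · intro x _
    exact sub_add_cancel x t
  · intro x _
    rfl

/-- the sum of a nontrivial character over a group -/
theorem char_sum {A : Type} [AddCommGroup A] (T : Finset A) (t : A)
    (ht : ∀ x, x + t ∈ T ↔ x ∈ T) (φ : A → ZMod 3) (c : ZMod 3) (hc : c ≠ 0)
    (hφ : ∀ x ∈ T, φ (x + t) = φ x + c) : ∑ x ∈ T, EE (φ x) = 0 := by
  have h1 := shift T t ht (fun x => EE (φ x))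
  have h2 : ∑ x ∈ T, EE (φ (x + t)) = EE c * ∑ x ∈ T, EE (φ x) := by
    rw [mul_sum]
    refine sum_congr rfl fun x hx => ?_
    rw [hφ x hx, AddChar.map_add_eq_mul, mul_comm]
  rw [h2] at h1
  have h3 : (EE c - 1) * ∑ x ∈ T, EE (φ x) = 0 := by
    rw [sub_mul, one_mul, h1, sub_self]
  rcases mul_eq_zero.1 h3 with h | h
  · exact absurd (sub_eq_zero.1 h) (EE_ne hc)
  · exact h

section
variable {ι : Type} [Fintype ι]

/-- the elements of a subspace -/
noncomputable def el (P : Submodule (ZMod 3) (X ι)) : Finset (X ι) := univ.filter fun x => x ∈ P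

theorem mem_el {P : Submodule (ZMod 3) (X ι)} {x : X ι} : x ∈ el P ↔ x ∈ P := by
  simp [el]

theorem card_el (P : Submodule (ZMod 3) (X ι)) : (el P).card = Nat.card P := by
  rw [← Set.ncard_coe_finset, ← Nat.card_coe_set_eq]
  congr 1
  have : (↑(el P) : Set (X ι)) = (P : Set (X ι)) := by
    ext x
    simp [el]
  rw [this]
  rfl

theorem el_shift (P : Submodule (ZMod 3) (X ι)) {t : X ι} (ht : t ∈ P) (x : X ι) :
    x + t ∈ el P ↔ x ∈ el P := by
  rw [mem_el, mem_el]
  exact P.add_mem_iff_left ht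

/-- the sum over a subspace -/
theorem sum_el (P : Submodule (ZMod 3) (X ι)) (y : X ι) :
    ∑ u ∈ el P, EE (om u y) = if ∀ u ∈ P, om u y = 0 then ((el P).card : ℂ) else 0 := by
  split_ifs with h
  · rw [sum_congr rfl (fun u hu => by rw [h u (mem_el.1 hu), AddChar.map_zero_eq_one])]
    simp
  · push Not at h
    obtain ⟨t, ht, hty⟩ := h
    refine char_sum (el P) t (el_shift P ht) (fun u => om u y) (om t y) hty (fun x _ => ?_)
    show om (x + t) y = om x y + om t y
    rw [map_add, LinearMap.add_apply]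

theorem perp {P : Submodule (ZMod 3) (X ι)} (hP : Lag P) (y : X ι)
    (hy : ∀ u ∈ P, om u y = 0) : y ∈ P := by
  set A : Finset (X ι) := univ.filter fun y => ∀ u ∈ P, om u y = 0 with hA
  have hPA : el P ⊆ A := by
    intro x hx
    rw [hA, mem_filter]
    refine ⟨mem_univ _, fun u hu => ?_⟩
    rw [om_apply, hP.iso u hu x (mem_el.1 hx), sub_self]
  have h1 : ∑ y : X ι, ∑ u ∈ el P, EE (om u y) = A.card * (el P).card := by
    simp only [sum_el]
    rw [← sum_filter, sum_const, nsmul_eq_mul]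
  have h2 : ∑ y : X ι, ∑ u ∈ el P, EE (om u y) = (Fintype.card (X ι) : ℂ) := by
    rw [sum_comm]
    rw [sum_eq_single_of_mem (0 : X ι) (mem_el.2 P.zero_mem)]
    · simp
    · intro u hu hu0
      have h3 : ∃ t, om u t ≠ 0 := by
        by_contra h
        push Not at h
        exact hu0 (om_nondeg u h)
      obtain ⟨t, ht⟩ := h3
      refine char_sum univ t (by simp) (fun y => om u y) (om u t) ht (fun x _ => ?_)
      show om u (x + t) = om u x + om u t
      rw [map_add]
  have hcard : Fintype.card (X ι) = 3 ^ Fintype.card ι * 3 ^ Fintype.card ι := by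
    rw [Fintype.card_prod, Fintype.card_fun, ZMod.card]
  have h3 : A.card * (el P).card = 3 ^ Fintype.card ι * 3 ^ Fintype.card ι := by
    rw [← hcard]
    have : ((A.card * (el P).card : ℕ) : ℂ) = ((Fintype.card (X ι) : ℕ) : ℂ) := by
      push_cast
      rw [← h1, h2]
    exact_mod_cast this
  have hPc : (el P).card = 3 ^ Fintype.card ι := by rw [card_el, hP.card]
  rw [hPc] at h3
  have h4 : A.card = 3 ^ Fintype.card ι := Nat.eq_of_mul_eq_mul_right (by positivity) h3
  have h5 : el P = A := eq_of_subset_of_card_le hPA (by rw [h4, hPc])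
  have h6 : y ∈ A := by rw [hA, mem_filter]; exact ⟨mem_univ _, hy⟩
  rw [← h5] at h6
  exact mem_el.1 h6
end

section tuples
variable {κ ι I : Type} [Fintype κ] [Fintype ι] [Fintype I]

/-- the tuples with `x i ∈ P (c i)` -/
noncomputable def TT (P : κ → Submodule (ZMod 3) (X ι)) (c : I → κ) : Finset (I → X ι) :=
  Fintype.piFinset fun i => el (P (c i))

theorem mem_TT {P : κ → Submodule (ZMod 3) (X ι)} {c : I → κ} {x : I → X ι} :
    x ∈ TT P c ↔ ∀ i, x i ∈ P (c i) := by
  simp only [TT, Fintype.mem_piFinset, mem_el]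

theorem card_TT {P : κ → Submodule (ZMod 3) (X ι)} (hP : ∀ j, Lag (P j)) (c : I → κ) :
    (TT P c).card = 3 ^ (Fintype.card ι * Fintype.card I) := by
  rw [TT, Fintype.card_piFinset]
  simp only [card_el, (hP _).card]
  rw [prod_const, card_univ, ← pow_mul]

theorem TT_shift [DecidableEq I] {P : κ → Submodule (ZMod 3) (X ι)} {c : I → κ} {i : I} {u : X ι}
    (hu : u ∈ P (c i)) (x : I → X ι) : x + Pi.single i u ∈ TT P c ↔ x ∈ TT P c := by
  rw [mem_TT, mem_TT]
  refine forall_congr' fun k => ?_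
  by_cases hk : k = i
  · subst hk
    rw [Pi.add_apply, Pi.single_eq_same]
    exact (P (c k)).add_mem_iff_left hu
  · rw [Pi.add_apply, Pi.single_eq_of_ne hk, add_zero]

variable [LinearOrder I]

/-- the pairs in different classes -/
noncomputable def QQ (c : I → κ) : Finset (I × I) :=
  univ.filter fun p => p.1 < p.2 ∧ c p.1 ≠ c p.2

/-- the quadratic form -/
noncomputable def ff (c : I → κ) (a : QQ c → ZMod 3) (x : I → X ι) : ZMod 3 :=
  ∑ p : QQ c, a p * om (x p.1.1) (x p.1.2)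

/-- its polar vector at `i₀` -/
noncomputable def yy (c : I → κ) (a : QQ c → ZMod 3) (i₀ : I) (x : I → X ι) : X ι :=
  ∑ p : QQ c, a p • ((if p.1.1 = i₀ then x p.1.2 else 0) - (if p.1.2 = i₀ then x p.1.1 else 0))

theorem ff_shift (c : I → κ) (a : QQ c → ZMod 3) (i₀ : I) (x : I → X ι) (u : X ι) :
    ff c a (x + Pi.single i₀ u) = ff c a x + om u (yy c a i₀ x) := by
  unfold ff yy
  rw [map_sum, ← sum_add_distrib]
  refine sum_congr rfl fun p _ => ?_
  have hp : p.1.1 < p.1.2 := (mem_filter.1 p.2).2.1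
  rw [map_smul, smul_eq_mul, ← mul_add]
  congr 1
  rw [map_sub]
  by_cases h1 : p.1.1 = i₀
  · have h2 : p.1.2 ≠ i₀ := fun h => by rw [h1, h] at hp; exact lt_irrefl _ hp
    rw [if_pos h1, if_neg h2, Pi.add_apply, Pi.add_apply, h1, Pi.single_eq_same,
      Pi.single_eq_of_ne h2, add_zero, map_add, LinearMap.add_apply, map_zero, sub_zero]
  · by_cases h2 : p.1.2 = i₀
    · rw [if_neg h1, if_pos h2, Pi.add_apply, Pi.add_apply, h2, Pi.single_eq_same,
        Pi.single_eq_of_ne h1, add_zero, map_add, map_zero, zero_sub, om_swap u]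
      ring
    · rw [if_neg h1, if_neg h2, Pi.add_apply, Pi.add_apply, Pi.single_eq_of_ne h1,
        Pi.single_eq_of_ne h2, add_zero, add_zero, map_zero, sub_self, add_zero]

theorem yy_shift (c : I → κ) (a : QQ c → ZMod 3) (p₀ : QQ c) (x : I → X ι) (v : X ι) :
    yy c a p₀.1.1 (x + Pi.single p₀.1.2 v) = yy c a p₀.1.1 x + a p₀ • v := by
  have h1 : ∑ p : QQ c, (if p = p₀ then a p₀ • v else 0) = a p₀ • v := by simp
  rw [← h1]
  unfold yy
  rw [← sum_add_distrib]
  refine sum_congr rfl fun p _ => ?_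
  have hp : p.1.1 < p.1.2 := (mem_filter.1 p.2).2.1
  have hp0 : p₀.1.1 < p₀.1.2 := (mem_filter.1 p₀.2).2.1
  by_cases h1 : p = p₀
  · subst h1
    have h3 : p.1.2 ≠ p.1.1 := hp.ne'
    simp only [if_true, h3, if_false, Pi.add_apply, Pi.single_eq_same, sub_zero, smul_add]
  · rw [if_neg h1, add_zero]
    congr 1
    congr 1
    · by_cases h2 : p.1.1 = p₀.1.1
      · have h3 : p.1.2 ≠ p₀.1.2 := fun h => h1 (Subtype.ext (Prod.ext h2 h))
        rw [if_pos h2, if_pos h2, Pi.add_apply, Pi.single_eq_of_ne h3, add_zero]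
      · rw [if_neg h2, if_neg h2]
    · by_cases h2 : p.1.2 = p₀.1.1
      · have h3 : p.1.1 ≠ p₀.1.2 := fun h => by
          rw [h2, h] at hp
          exact lt_asymm hp hp0
        rw [if_pos h2, if_pos h2, Pi.add_apply, Pi.single_eq_of_ne h3, add_zero]
      · rw [if_neg h2, if_neg h2]

/-- the number of the `v` in `P` for which `y + a v` is in `P'` -/
theorem coset (P P' : Submodule (ZMod 3) (X ι)) (y : X ι) (a : ZMod 3) (ha : a ≠ 0) :
    ((el P).filter fun v => y + a • v ∈ P').card ≤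
      ((P' ⊓ P : Submodule (ZMod 3) (X ι)) : Set (X ι)).ncard := by
  rcases ((el P).filter fun v => y + a • v ∈ P').eq_empty_or_nonempty with h | ⟨v₀, hv₀⟩
  · rw [h]; simp
  · obtain ⟨h1, h2⟩ := mem_filter.1 hv₀
    rw [← Set.ncard_coe_finset]
    refine Set.ncard_le_ncard_of_injOn (fun v => v - v₀) ?_ ?_ (Set.toFinite _)
    · intro v hv
      obtain ⟨h3, h4⟩ := mem_filter.1 (mem_coe.1 hv)
      refine ⟨?_, P.sub_mem (mem_el.1 h3) (mem_el.1 h1)⟩
      have h5 := P'.smul_mem a⁻¹ (P'.sub_mem h4 h2)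
      have h6 : a⁻¹ • (y + a • v - (y + a • v₀)) = v - v₀ := by
        rw [add_sub_add_left_eq_sub, ← smul_sub, smul_smul, inv_mul_cancel₀ ha, one_smul]
      rw [h6] at h5
      exact h5
    · intro v _ v' _ h
      exact sub_left_injective h

theorem few {δ : ℝ} {P : κ → Submodule (ZMod 3) (X ι)} (hP : Hyp δ P) (c : I → κ)
    (a : QQ c → ZMod 3) (p₀ : QQ c) (ha : a p₀ ≠ 0) :
    (((TT P c).filter fun x => yy c a p₀.1.1 x ∈ P (c p₀.1.1)).card : ℝ) ≤
      δ * (TT P c).card := by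
  set i₀ := p₀.1.1 with hi0
  set i₁ := p₀.1.2 with hi1
  have hc : c i₀ ≠ c i₁ := (mem_filter.1 p₀.2).2.2
  set N : ℕ := 3 ^ Fintype.card ι with hN
  have hel : ∀ j, (el (P j)).card = N := fun j => by rw [card_el, (hP.lag j).card]
  have h1 : N * ((TT P c).filter fun x => yy c a i₀ x ∈ P (c i₀)).card =
      ∑ x ∈ TT P c, ((el (P (c i₁))).filter fun v => yy c a i₀ x + a p₀ • v ∈ P (c i₀)).card := by
    have h2 : ∀ v ∈ el (P (c i₁)), ((TT P c).filter fun x => yy c a i₀ x ∈ P (c i₀)).card =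
        ∑ x ∈ TT P c, if yy c a i₀ x + a p₀ • v ∈ P (c i₀) then 1 else 0 := by
      intro v hv
      have h3 := shift (TT P c) (Pi.single i₁ v) (TT_shift (mem_el.1 hv))
        (fun x => if yy c a i₀ x ∈ P (c i₀) then 1 else 0)
      rw [card_filter, ← h3]
      refine sum_congr rfl fun x _ => ?_
      rw [hi0, hi1, yy_shift]
    calc N * ((TT P c).filter fun x => yy c a i₀ x ∈ P (c i₀)).card
        = ∑ v ∈ el (P (c i₁)), ((TT P c).filter fun x => yy c a i₀ x ∈ P (c i₀)).card := by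
          rw [sum_const, hel, smul_eq_mul]
      _ = ∑ v ∈ el (P (c i₁)), ∑ x ∈ TT P c,
            if yy c a i₀ x + a p₀ • v ∈ P (c i₀) then 1 else 0 := sum_congr rfl h2
      _ = _ := by
          rw [sum_comm]
          refine sum_congr rfl fun x _ => ?_
          rw [card_filter]
  have h4 : (N : ℝ) * ((TT P c).filter fun x => yy c a i₀ x ∈ P (c i₀)).card ≤
      (TT P c).card * (δ * N) := by
    have h5 : (N : ℝ) * ((TT P c).filter fun x => yy c a i₀ x ∈ P (c i₀)).card =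
        ∑ x ∈ TT P c,
          (((el (P (c i₁))).filter fun v => yy c a i₀ x + a p₀ • v ∈ P (c i₀)).card : ℝ) := by
      exact_mod_cast h1
    rw [h5, ← nsmul_eq_mul]
    refine sum_le_card_nsmul _ _ _ fun x _ => ?_
    have h6 := coset (P (c i₁)) (P (c i₀)) (yy c a i₀ x) (a p₀) ha
    have h7 := hP.two (c i₀) (c i₁) hc
    refine le_trans (by exact_mod_cast h6) (h7.trans (le_of_eq ?_))
    rw [hN]
    push_cast
    ring
  have hN0 : (0 : ℝ) < N := by rw [hN]; positivity
  have h8 : (N : ℝ) * ((TT P c).filter fun x => yy c a i₀ x ∈ P (c i₀)).card ≤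
      N * (δ * (TT P c).card) := by linarith
  exact le_of_mul_le_mul_left h8 hN0

theorem term {δ : ℝ} {P : κ → Submodule (ZMod 3) (X ι)} (hP : Hyp δ P) (c : I → κ)
    (a : QQ c → ZMod 3) (ha : a ≠ 0) :
    ‖∑ x ∈ TT P c, EE (ff c a x)‖ ≤ δ * (TT P c).card := by
  obtain ⟨p₀, hp₀⟩ : ∃ p, a p ≠ 0 := by
    by_contra h
    push Not at h
    exact ha (funext h)
  set i₀ := p₀.1.1 with hi0
  set N : ℕ := 3 ^ Fintype.card ι with hN
  have hel : ∀ j, (el (P j)).card = N := fun j => by rw [card_el, (hP.lag j).card]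
  have hN0 : (0 : ℝ) < N := by rw [hN]; positivity
  have h1 : (N : ℂ) * ∑ x ∈ TT P c, EE (ff c a x) =
      ∑ x ∈ TT P c, EE (ff c a x) * ∑ u ∈ el (P (c i₀)), EE (om u (yy c a i₀ x)) := by
    have h2 : ∀ u ∈ el (P (c i₀)), ∑ x ∈ TT P c, EE (ff c a x) =
        ∑ x ∈ TT P c, EE (ff c a x) * EE (om u (yy c a i₀ x)) := by
      intro u hu
      have h3 := shift (TT P c) (Pi.single i₀ u) (TT_shift (mem_el.1 hu)) (fun x => EE (ff c a x))
      rw [← h3]
      refine sum_congr rfl fun x _ => ?_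
      rw [ff_shift, AddChar.map_add_eq_mul]
    calc (N : ℂ) * ∑ x ∈ TT P c, EE (ff c a x)
        = ∑ u ∈ el (P (c i₀)), ∑ x ∈ TT P c, EE (ff c a x) := by
          rw [sum_const, hel, nsmul_eq_mul]
      _ = ∑ u ∈ el (P (c i₀)), ∑ x ∈ TT P c, EE (ff c a x) * EE (om u (yy c a i₀ x)) :=
          sum_congr rfl h2
      _ = _ := by
          rw [sum_comm]
          refine sum_congr rfl fun x _ => ?_
          rw [mul_sum]
  have h4 : ∀ x, ‖EE (ff c a x) * ∑ u ∈ el (P (c i₀)), EE (om u (yy c a i₀ x))‖ ≤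
      if yy c a i₀ x ∈ P (c i₀) then (N : ℝ) else 0 := by
    intro x
    rw [norm_mul, EE_norm, one_mul, sum_el]
    by_cases h : ∀ u ∈ P (c i₀), om u (yy c a i₀ x) = 0
    · rw [if_pos h, if_pos (perp (hP.lag _) _ h), hel]
      simp
    · rw [if_neg h, norm_zero]
      split_ifs <;> simp
  have h5 : (N : ℝ) * ‖∑ x ∈ TT P c, EE (ff c a x)‖ ≤
      N * (δ * (TT P c).card) := by
    calc (N : ℝ) * ‖∑ x ∈ TT P c, EE (ff c a x)‖ = ‖(N : ℂ) * ∑ x ∈ TT P c, EE (ff c a x)‖ := by
          rw [norm_mul, Complex.norm_natCast]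
      _ ≤ ∑ x ∈ TT P c, ‖EE (ff c a x) * ∑ u ∈ el (P (c i₀)), EE (om u (yy c a i₀ x))‖ := by
          rw [h1]; exact norm_sum_le _ _
      _ ≤ ∑ x ∈ TT P c, if yy c a i₀ x ∈ P (c i₀) then (N : ℝ) else 0 := sum_le_sum fun x _ => h4 x
      _ = ((TT P c).filter fun x => yy c a i₀ x ∈ P (c i₀)).card * N := by
          rw [← sum_filter, sum_const, nsmul_eq_mul]
      _ ≤ (δ * (TT P c).card) * N := mul_le_mul_of_nonneg_right (few hP c a p₀ hp₀) hN0.le
      _ = _ := by ring
  exact le_of_mul_le_mul_left h5 hN0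

/-- the indicator of `t = 0` -/
theorem ind (t : ZMod 3) : (if t = 0 then (1 : ℂ) else 0) = 3⁻¹ * ∑ a : ZMod 3, EE (a * t) := by
  split_ifs with h
  · subst h
    simp [AddChar.map_zero_eq_one, ZMod.card]
  · rw [char_sum univ (1 : ZMod 3) (by simp) (fun a => a * t) t h (fun x _ => by ring), mul_zero]

theorem main {δ : ℝ} (hδ : 0 ≤ δ) {P : κ → Submodule (ZMod 3) (X ι)} (hP : Hyp δ P) (c : I → κ) :
    |(((TT P c).filter fun x => ∀ p ∈ QQ c, om (x p.1) (x p.2) = 0).card : ℝ) / (TT P c).card -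
      1 / 3 ^ (QQ c).card| ≤ δ := by
  set q := (QQ c).card with hq
  have h1 : ∀ x : I → X ι, (if ∀ p ∈ QQ c, om (x p.1) (x p.2) = 0 then (1 : ℂ) else 0) =
      (3⁻¹) ^ q * ∑ a : QQ c → ZMod 3, EE (ff c a x) := by
    intro x
    have h2 : (if ∀ p ∈ QQ c, om (x p.1) (x p.2) = 0 then (1 : ℂ) else 0) =
        ∏ p : QQ c, if om (x p.1.1) (x p.1.2) = 0 then (1 : ℂ) else 0 := by
      split_ifs with h
      · rw [prod_eq_one]
        intro p _
        rw [if_pos (h p.1 p.2)]
      · push Not at h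
        obtain ⟨p, hp, hne⟩ := h
        rw [prod_eq_zero (mem_univ (⟨p, hp⟩ : QQ c))]
        rw [if_neg hne]
    rw [h2]
    simp only [ind]
    rw [prod_mul_distrib, prod_const, card_univ, Fintype.card_coe, ← hq, prod_univ_sum]
    congr 1
    rw [Fintype.piFinset_univ]
    refine sum_congr rfl fun a _ => ?_
    rw [ff]
    exact (EE_sum _ _).symm
  have h3 : (((TT P c).filter fun x => ∀ p ∈ QQ c, om (x p.1) (x p.2) = 0).card : ℂ) =
      (3⁻¹) ^ q * ∑ a : QQ c → ZMod 3, ∑ x ∈ TT P c, EE (ff c a x) := by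
    rw [card_filter]
    push_cast
    rw [sum_congr rfl fun x _ => h1 x, ← mul_sum, sum_comm]
  have h0 : ∑ x ∈ TT P c, EE (ff c (0 : QQ c → ZMod 3) x) = ((TT P c).card : ℂ) := by
    rw [sum_congr rfl (g := fun _ => (1 : ℂ))]
    · simp
    · intro x _
      simp [ff, AddChar.map_zero_eq_one]
  have h4 : (((TT P c).filter fun x => ∀ p ∈ QQ c, om (x p.1) (x p.2) = 0).card : ℂ) -
      (3⁻¹) ^ q * (TT P c).card =
      (3⁻¹) ^ q * ∑ a ∈ (univ : Finset (QQ c → ZMod 3)).erase 0,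
        ∑ x ∈ TT P c, EE (ff c a x) := by
    rw [h3, ← add_sum_erase _ _ (mem_univ (0 : QQ c → ZMod 3)), h0]
    ring
  have h5 : ‖(((TT P c).filter fun x => ∀ p ∈ QQ c, om (x p.1) (x p.2) = 0).card : ℂ) -
      (3⁻¹) ^ q * (TT P c).card‖ ≤ δ * (TT P c).card := by
    rw [h4, norm_mul, norm_pow, norm_inv]
    have h6 : ‖∑ a ∈ (univ : Finset (QQ c → ZMod 3)).erase 0,
        ∑ x ∈ TT P c, EE (ff c a x)‖ ≤ 3 ^ q * (δ * (TT P c).card) := by
      refine (norm_sum_le _ _).trans ?_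
      refine (sum_le_card_nsmul _ _ (δ * (TT P c).card) fun a ha =>
        term hP c a (ne_of_mem_erase ha)).trans ?_
      rw [nsmul_eq_mul]
      refine mul_le_mul_of_nonneg_right ?_ (by positivity)
      have h7 : ((univ : Finset (QQ c → ZMod 3)).erase 0).card ≤ 3 ^ q := by
        refine (card_le_card (erase_subset _ _)).trans ?_
        rw [card_univ, Fintype.card_fun, ZMod.card, Fintype.card_coe]
      exact_mod_cast h7
    have h8 : ‖(3 : ℂ)‖⁻¹ ^ q = ((3 : ℝ) ^ q)⁻¹ := by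
      rw [inv_pow]
      norm_num
    rw [h8]
    calc ((3 : ℝ) ^ q)⁻¹ * ‖∑ a ∈ (univ : Finset (QQ c → ZMod 3)).erase 0,
        ∑ x ∈ TT P c, EE (ff c a x)‖ ≤ ((3 : ℝ) ^ q)⁻¹ * (3 ^ q * (δ * (TT P c).card)) :=
          mul_le_mul_of_nonneg_left h6 (by positivity)
      _ = δ * (TT P c).card := by
          rw [← mul_assoc, inv_mul_cancel₀ (by positivity), one_mul]
  set G : ℝ := (((TT P c).filter fun x => ∀ p ∈ QQ c, om (x p.1) (x p.2) = 0).card : ℝ) with hG
  set M : ℝ := ((TT P c).card : ℝ) with hM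
  have h6 : |G - (3⁻¹) ^ q * M| ≤ δ * M := by
    have h7 : ((G - (3⁻¹) ^ q * M : ℝ) : ℂ) =
        (((TT P c).filter fun x => ∀ p ∈ QQ c, om (x p.1) (x p.2) = 0).card : ℂ) -
        (3⁻¹) ^ q * (TT P c).card := by
      rw [hG, hM]
      push_cast
      rfl
    rw [← h7, Complex.norm_real] at h5
    exact h5
  have hM0 : 0 < M := by
    rw [hM, card_TT hP.lag]
    positivity
  have h9 : G / M - 1 / 3 ^ q = (G - (3⁻¹) ^ q * M) / M := by
    rw [sub_div, mul_div_assoc, div_self hM0.ne', mul_one, inv_pow, one_div]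
  rw [h9, abs_div, abs_of_pos hM0, div_le_iff₀ hM0]
  exact h6

end tuples

theorem card_QQ {κ I : Type} [Fintype κ] [Fintype I] [LinearOrder I] (c : I → κ) :
    (QQ c).card + ∑ j, (Fintype.card {i // c i = j}).choose 2 = (Fintype.card I).choose 2 := by
  rw [← card_lt I]
  have h2 : (univ.filter fun p : I × I => p.1 < p.2) =
      QQ c ∪ (univ.filter fun p : I × I => p.1 < p.2 ∧ c p.1 = c p.2) := by
    ext p
    simp only [QQ, mem_filter, mem_univ, true_and, mem_union]
    tauto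
  rw [h2, card_union_of_disjoint]
  · congr 1
    rw [card_eq_sum_card_fiberwise
      (f := fun p : I × I => c p.1) (t := univ) (fun _ _ => mem_coe.2 (mem_univ _))]
    refine sum_congr rfl fun j _ => ?_
    rw [← card_lt {i : I // c i = j}]
    refine card_bij (fun p _ => (p.1.1, p.2.1)) ?_ ?_ ?_
    · rintro ⟨⟨a, ha⟩, ⟨b, hb⟩⟩ hp
      have h4 : a < b := by simpa using hp
      simp only [mem_filter, mem_univ, true_and]
      exact ⟨⟨h4, ha.trans hb.symm⟩, ha⟩
    · rintro ⟨⟨a, ha⟩, ⟨b, hb⟩⟩ _ ⟨⟨a', ha'⟩, ⟨b', hb'⟩⟩ _ h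
      simp only [Prod.mk.injEq] at h
      simp only [Prod.mk.injEq, Subtype.mk.injEq]
      exact h
    · rintro ⟨a, b⟩ hp
      simp only [mem_filter, mem_univ, true_and] at hp
      refine ⟨(⟨a, hp.2⟩, ⟨b, hp.1.2.symm.trans hp.2⟩), ?_, rfl⟩
      simpa using hp.1.1
  · rw [disjoint_left]
    intro p hp hq
    simp only [QQ, mem_filter, mem_univ, true_and] at hp hq
    exact hp.2 hq.2

theorem gen {κ ι I : Type} [Fintype κ] [Fintype ι] [Fintype I] {δ : ℝ} (hδ : 0 ≤ δ)
    {P : κ → Submodule (ZMod 3) (X ι)} (hP : Hyp δ P) (c : I → κ) :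
    |(({x : I → X ι | (∀ i, x i ∈ P (c i)) ∧
      ∀ i i', (x i).1 ⬝ᵥ (x i').2 = (x i').1 ⬝ᵥ (x i).2} : Set (I → X ι)).ncard : ℝ) /
      3 ^ (Fintype.card ι * Fintype.card I) -
      3 ^ (∑ j, (Fintype.card {i // c i = j}).choose 2) / 3 ^ (Fintype.card I).choose 2| ≤ δ := by
  let _ : LinearOrder I := LinearOrder.lift' (Fintype.equivFin I) (Fintype.equivFin I).injective
  have h1 := main hδ hP c
  rw [card_TT hP.lag] at h1
  have h2 : ({x : I → X ι | (∀ i, x i ∈ P (c i)) ∧
      ∀ i i', (x i).1 ⬝ᵥ (x i').2 = (x i').1 ⬝ᵥ (x i).2} : Set (I → X ι)) =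
      ↑((TT P c).filter fun x => ∀ p ∈ QQ c, om (x p.1) (x p.2) = 0) := by
    ext x
    simp only [Set.mem_ofPred_eq, coe_filter, mem_TT]
    constructor
    · rintro ⟨h3, h4⟩
      exact ⟨h3, fun p _ => by rw [om_apply, h4, sub_self]⟩
    · rintro ⟨h3, h4⟩
      refine ⟨h3, fun i i' => ?_⟩
      by_cases hc : c i = c i'
      · exact (hP.lag (c i')).iso _ (hc ▸ h3 i) _ (h3 i')
      · rcases lt_trichotomy i i' with h | h | h
        · have h5 := h4 (i, i') (mem_filter.2 ⟨mem_univ _, h, hc⟩)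
          rw [om_apply] at h5
          exact sub_eq_zero.1 h5
        · exact absurd (congrArg c h) hc
        · have h5 := h4 (i', i) (mem_filter.2 ⟨mem_univ _, h, fun h => hc h.symm⟩)
          rw [om_apply] at h5
          exact (sub_eq_zero.1 h5).symm
  rw [h2, Set.ncard_coe_finset]
  have h3 : (3 : ℝ) ^ (∑ j, (Fintype.card {i // c i = j}).choose 2) /
      3 ^ (Fintype.card I).choose 2 = 1 / 3 ^ (QQ c).card := by
    rw [← card_QQ c, pow_add]
    rw [div_eq_div_iff (by positivity) (by positivity)]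
    ring
  rw [h3]
  push_cast at h1
  exact h1

theorem t_COMP : S_COMP := by
  intro κ ι _ _ _ δ P n hδ hP
  have h1 := gen hδ hP (fun i : (Σ j, Fin (n j)) => i.1)
  have hc : Fintype.card (Σ j, Fin (n j)) = ∑ j, n j := by
    rw [Fintype.card_sigma]
    simp
  have h3 : ∀ j, Fintype.card {i : (Σ j, Fin (n j)) // i.1 = j} = n j := by
    intro j
    have h4 : Fintype.card {i : (Σ j, Fin (n j)) // i.1 = j} = Fintype.card (Fin (n j)) :=
      Fintype.card_congr
        { toFun := fun i => cast (congrArg (fun t => Fin (n t)) i.2) i.1.2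
          invFun := fun k => ⟨⟨j, k⟩, rfl⟩
          left_inv := by
            rintro ⟨⟨j', k⟩, rfl⟩
            rfl
          right_inv := fun k => rfl }
    rw [h4, Fintype.card_fin]
  rw [hc] at h1
  simp only [h3] at h1
  exact h1

end Pool.Agent.D0H22.JT
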