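import Pool.Agent.D0H69.JT.Stm

/-!
# JT-L1: the number of the symmetric matrices with prescribed values on independent vectors

Author: helper22 (statement: helper69).
-/

set_option autoImplicit false

open scoped Classical

namespace Pool.Agent.D0H22.JT

open Finset Matrix Pool.Agent.D0H69.JT

theorem dual {ι I : Type} [Fintype ι] [Fintype I] (d : I → ι → ZMod 3)
    (hd : LinearIndependent (ZMod 3) d) :
    ∃ w : I → ι → ZMod 3, ∀ i j, w i ⬝ᵥ d j = if i = j then 1 else 0 := by
  have hinj : LinearMap.ker (Fintype.linearCombination (ZMod 3) d) = ⊥ :=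
    LinearMap.ker_eq_bot.2 (linearIndependent_iff_injective_fintypeLinearCombination.1 hd)
  obtain ⟨g, hg⟩ := LinearMap.exists_leftInverse_of_injective _ hinj
  refine ⟨fun i k => g (Pi.single k 1) i, fun i j => ?_⟩
  have h1 : g (d j) = Pi.single j 1 := by
    have h2 : Fintype.linearCombination (ZMod 3) d (Pi.single j 1) = d j := by
      simp [Fintype.linearCombination_apply]
    rw [← h2]
    exact LinearMap.congr_fun hg _
  have h3 : d j = ∑ k, d j k • (Pi.single k (1 : ZMod 3) : ι → ZMod 3) := by
    ext k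
    simp [Finset.sum_apply, Pi.single_apply]
  have h4 : g (d j) = ∑ k, d j k • g (Pi.single k 1) := by
    conv_lhs => rw [h3]
    rw [map_sum]
    simp
  have h5 : ∑ k, g (Pi.single k 1) i * d j k = (g (d j)) i := by
    rw [h4, Finset.sum_apply]
    refine sum_congr rfl fun k _ => ?_
    simp [mul_comm]
  show ∑ k, g (Pi.single k 1) i * d j k = _
  rw [h5, h1, Pi.single_apply]

/-- a symmetric matrix with the given values -/
noncomputable def sec {ι I : Type} [Fintype ι] [Fintype I] (d w b : I → ι → ZMod 3) :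
    Matrix ι ι (ZMod 3) := fun k l =>
  ∑ i, (b i k * w i l + w i k * b i l) - ∑ i, ∑ j, (b i ⬝ᵥ d j) * (w i k * w j l)

theorem sec_symm {ι I : Type} [Fintype ι] [Fintype I] (d w b : I → ι → ZMod 3)
    (hb : ∀ i j, b i ⬝ᵥ d j = b j ⬝ᵥ d i) : (sec d w b).IsSymm := by
  ext k l
  show sec d w b l k = sec d w b k l
  unfold sec
  congr 1
  · refine sum_congr rfl fun i _ => ?_
    ring
  · rw [sum_comm]
    refine sum_congr rfl fun i _ => sum_congr rfl fun j _ => ?_
    rw [hb j i]
    ring

theorem sec_mulVec {ι I : Type} [Fintype ι] [Fintype I] (d w b : I → ι → ZMod 3)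
    (hw : ∀ i j, w i ⬝ᵥ d j = if i = j then 1 else 0) (m : I) :
    (sec d w b).mulVec (d m) = b m := by
  ext k
  show ∑ l, sec d w b k l * d m l = b m k
  have h1 : ∀ l, sec d w b k l * d m l =
      ∑ i, (b i k * (w i l * d m l) + w i k * (b i l * d m l)) -
        ∑ i, ∑ j, (b i ⬝ᵥ d j) * w i k * (w j l * d m l) := by
    intro l
    unfold sec
    rw [sub_mul, sum_mul, sum_mul]
    congr 1
    · refine sum_congr rfl fun i _ => ?_
      ring
    · refine sum_congr rfl fun i _ => ?_
      rw [sum_mul]
      refine sum_congr rfl fun j _ => ?_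
      ring
  simp only [h1]
  rw [sum_sub_distrib, sum_comm]
  have h2 : ∀ i, ∑ l, (b i k * (w i l * d m l) + w i k * (b i l * d m l)) =
      b i k * (w i ⬝ᵥ d m) + w i k * (b i ⬝ᵥ d m) := by
    intro i
    rw [sum_add_distrib, ← mul_sum, ← mul_sum]
    rfl
  have h3 : ∑ l, ∑ i, ∑ j, (b i ⬝ᵥ d j) * w i k * (w j l * d m l) =
      ∑ i, ∑ j, (b i ⬝ᵥ d j) * w i k * (w j ⬝ᵥ d m) := by
    rw [sum_comm]
    refine sum_congr rfl fun i _ => ?_
    rw [sum_comm]
    refine sum_congr rfl fun j _ => ?_
    rw [← mul_sum]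
    rfl
  rw [h3]
  simp only [h2, hw]
  simp only [mul_ite, mul_one, mul_zero, sum_add_distrib, sum_ite_eq', mem_univ, if_true]
  have h4 : ∑ i, w i k * (b i ⬝ᵥ d m) = ∑ i, (b i ⬝ᵥ d m) * w i k :=
    sum_congr rfl fun i _ => mul_comm _ _
  rw [h4]
  ring

/-- the compatible families -/
noncomputable def CC {ι I : Type} [Fintype ι] [Fintype I] (d : I → ι → ZMod 3) :
    Finset (I → ι → ZMod 3) :=
  univ.filter fun b => ∀ i j, b i ⬝ᵥ d j = b j ⬝ᵥ d i

theorem card_lt (I : Type) [Fintype I] [LinearOrder I] :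
    (univ.filter fun p : I × I => p.1 < p.2).card = (Fintype.card I).choose 2 := by
  have h1 : (univ.filter fun p : I × I => p.2 < p.1).card =
      (univ.filter fun p : I × I => p.1 < p.2).card := by
    refine card_bij (fun p _ => (p.2, p.1)) ?_ ?_ ?_
    · intro p hp
      simpa using hp
    · rintro ⟨a, b⟩ _ ⟨c, e⟩ _ h
      simp only [Prod.mk.injEq] at h ⊢
      exact ⟨h.2, h.1⟩
    · rintro ⟨a, b⟩ hp
      exact ⟨(b, a), by simpa using hp, rfl⟩
  have h2 : (univ.filter fun p : I × I => p.1 = p.2).card = Fintype.card I := by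
    rw [← card_univ (α := I)]
    refine (card_bij (fun (a : I) _ => ((a, a) : I × I)) ?_ ?_ ?_).symm
    · intro a _
      simp
    · intro a _ b _ h
      exact (Prod.mk.inj h).1
    · rintro ⟨a, b⟩ hp
      have : a = b := by simpa using hp
      exact ⟨a, mem_univ _, by rw [this]⟩
  have h3 : (univ : Finset (I × I)).card =
      (univ.filter fun p : I × I => p.1 < p.2).card +
      (univ.filter fun p : I × I => p.2 < p.1).card +
      (univ.filter fun p : I × I => p.1 = p.2).card := by
    rw [← card_union_of_disjoint, ← card_union_of_disjoint]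
    · congr 1
      ext p
      simp only [mem_univ, mem_union, mem_filter, true_and, true_iff]
      rcases lt_trichotomy p.1 p.2 with h | h | h
      · exact Or.inl (Or.inl h)
      · exact Or.inr h
      · exact Or.inl (Or.inr h)
    · rw [disjoint_left]
      intro p hp hq
      simp only [mem_union, mem_filter, mem_univ, true_and] at hp hq
      rcases hp with h | h
      · exact h.ne hq
      · exact h.ne hq.symm
    · rw [disjoint_left]
      intro p hp hq
      simp only [mem_filter, mem_univ, true_and] at hp hq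
      exact lt_asymm hp hq
  rw [card_univ, Fintype.card_prod, h1, h2] at h3
  rw [Nat.choose_two_right]
  set r := Fintype.card I
  have h4 : r * (r - 1) = r * r - r := by
    rw [Nat.mul_sub, mul_one]
  rw [h4]
  omega

theorem card_CC {ι I : Type} [Fintype ι] [Fintype I] (d : I → ι → ZMod 3)
    (hd : LinearIndependent (ZMod 3) d) :
    (CC d).card * 3 ^ (Fintype.card I).choose 2 = 3 ^ (Fintype.card ι * Fintype.card I) := by
  let _ : LinearOrder I := LinearOrder.lift' (Fintype.equivFin I) (Fintype.equivFin I).injective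
  obtain ⟨w, hw⟩ := dual d hd
  set PP : Finset (I × I) := univ.filter fun p : I × I => p.1 < p.2 with hPP
  -- the map to the functions on the pairs
  let ψ : (I → ι → ZMod 3) → (PP → ZMod 3) := fun b p => b p.1.1 ⬝ᵥ d p.1.2 - b p.1.2 ⬝ᵥ d p.1.1
  let b0 : (PP → ZMod 3) → I → ι → ZMod 3 := fun α i =>
    ∑ j, (if h : (i, j) ∈ PP then α ⟨(i, j), h⟩ else 0) • w j
  have hb0 : ∀ α i j, b0 α i ⬝ᵥ d j = if h : (i, j) ∈ PP then α ⟨(i, j), h⟩ else 0 := by
    intro α i j
    simp only [b0]
    rw [sum_dotProduct]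
    simp only [smul_dotProduct, hw, smul_eq_mul, mul_ite, mul_one, mul_zero]
    simp
  have hψb0 : ∀ α, ψ (b0 α) = α := by
    intro α
    ext ⟨⟨i, j⟩, hp⟩
    simp only [ψ, hb0]
    rw [dif_pos hp]
    have h1 : (j, i) ∉ PP := by
      simp only [hPP, mem_filter, mem_univ, true_and] at hp ⊢
      exact not_lt.2 hp.le
    rw [dif_neg h1, sub_zero]
  have hψadd : ∀ b b', ψ (b + b') = ψ b + ψ b' := by
    intro b b'
    ext p
    simp only [ψ, Pi.add_apply, add_dotProduct]
    ring
  have hψsub : ∀ b b', ψ (b - b') = ψ b - ψ b' := by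
    intro b b'
    ext p
    simp only [ψ, Pi.sub_apply, sub_dotProduct]
    ring
  have hψ0 : ∀ b, b ∈ CC d ↔ ψ b = 0 := by
    intro b
    simp only [CC, mem_filter, mem_univ, true_and]
    constructor
    · intro h
      ext p
      simp only [ψ, Pi.zero_apply, h p.1.1 p.1.2, sub_self]
    · intro h i j
      rcases lt_trichotomy i j with hij | hij | hij
      · have h1 := congrFun h ⟨(i, j), by simp [hPP, hij]⟩
        exact sub_eq_zero.1 h1
      · rw [hij]
      · have h1 := congrFun h ⟨(j, i), by simp [hPP, hij]⟩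
        exact (sub_eq_zero.1 h1).symm
  have hfib : ∀ α : PP → ZMod 3, (univ.filter fun b => ψ b = α).card = (CC d).card := by
    intro α
    refine card_bij (fun b _ => b - b0 α) ?_ ?_ ?_
    · intro b hb
      rw [hψ0, hψsub, hψb0, (mem_filter.1 hb).2, sub_self]
    · intro b _ b' _ h
      exact sub_left_injective h
    · intro b hb
      refine ⟨b + b0 α, ?_, add_sub_cancel_right _ _⟩
      rw [mem_filter]
      refine ⟨mem_univ _, ?_⟩
      rw [hψadd, hψb0, (hψ0 b).1 hb, zero_add]
  have h1 : (univ : Finset (I → ι → ZMod 3)).card = ∑ α : PP → ZMod 3,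
      (univ.filter fun b => ψ b = α).card :=
    card_eq_sum_card_fiberwise (fun _ _ => mem_coe.2 (mem_univ _))
  simp only [hfib] at h1
  rw [sum_const, card_univ, card_univ, Fintype.card_fun, Fintype.card_fun, Fintype.card_fun,
    ZMod.card, Fintype.card_coe, hPP, card_lt, smul_eq_mul, ← pow_mul] at h1
  rw [h1, mul_comm]

theorem t_L1 : S_L1 := by
  intro ι I _ hdec _ x hx
  obtain rfl : hdec = fun a b => Classical.propDecidable (a = b) := Subsingleton.elim _ _
  set d : I → ι → ZMod 3 := fun i => (x i).1 with hd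
  have hcomp : ∀ S : Matrix ι ι (ZMod 3), S.IsSymm → ∀ u v : ι → ZMod 3,
      S.mulVec u ⬝ᵥ v = S.mulVec v ⬝ᵥ u := by
    intro S hS u v
    rw [dotProduct_comm, dotProduct_mulVec, ← mulVec_transpose, hS.eq]
  refine ⟨fun hc => ?_, fun hc => ?_⟩
  · obtain ⟨w, hw⟩ := dual d hx
    set K := ((Sy ι).filter fun S => ∀ i, S.mulVec (d i) = 0).card with hK
    have hfib : ∀ b ∈ CC d, ((Sy ι).filter fun S => (fun i => S.mulVec (d i)) = b).card = K := by
      intro b hb
      have hb' : ∀ i j, b i ⬝ᵥ d j = b j ⬝ᵥ d i := (mem_filter.1 hb).2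
      have hs : (sec d w b).IsSymm := sec_symm d w b hb'
      have hm := sec_mulVec d w b hw
      rw [hK]
      refine card_bij (fun S _ => S - sec d w b) ?_ ?_ ?_
      · intro S hS
        obtain ⟨h1, h2⟩ := mem_filter.1 hS
        have h1' : S.IsSymm := (mem_filter.1 h1).2
        refine mem_filter.2 ⟨mem_filter.2 ⟨mem_univ _, ?_⟩, fun i => ?_⟩
        · exact h1'.sub hs
        · rw [sub_mulVec, hm i, ← h2, sub_self]
      · intro S _ S' _ h
        exact sub_left_injective h
      · intro S hS
        obtain ⟨h1, h2⟩ := mem_filter.1 hS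
        have h1' : S.IsSymm := (mem_filter.1 h1).2
        refine ⟨S + sec d w b, mem_filter.2 ⟨mem_filter.2 ⟨mem_univ _, h1'.add hs⟩, ?_⟩,
          add_sub_cancel_right _ _⟩
        funext i
        rw [add_mulVec, hm i, h2 i, zero_add]
    have htot : (Sy ι).card = (CC d).card * K := by
      rw [card_eq_sum_card_fiberwise (f := fun S : Matrix ι ι (ZMod 3) =>
        (fun i => S.mulVec (d i))) (t := CC d)]
      · rw [sum_congr rfl hfib, sum_const, smul_eq_mul]
      · intro S hS
        have h1 : S.IsSymm := (mem_filter.1 (mem_coe.1 hS)).2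
        exact mem_coe.2 (mem_filter.2 ⟨mem_univ _, fun i j => hcomp S h1 _ _⟩)
    have hb : (fun i => (x i).2) ∈ CC d := by
      refine mem_filter.2 ⟨mem_univ _, fun i j => ?_⟩
      rw [dotProduct_comm]
      exact (hc j i).trans (dotProduct_comm _ _)
    have h1 := hfib _ hb
    have h2 : ((Sy ι).filter fun S => ∀ i, Gr S (x i)) =
        ((Sy ι).filter fun S => (fun i => S.mulVec (d i)) = fun i => (x i).2) := by
      refine filter_congr fun S _ => ?_
      constructor
      · intro h
        funext i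
        exact h i
      · intro h i
        exact congrFun h i
    rw [h2, h1, htot, ← card_CC d hx]
    ring
  · rw [card_eq_zero, filter_eq_empty_iff]
    intro S hS h
    apply hc
    intro i i'
    have h1 : S.IsSymm := (mem_filter.1 hS).2
    rw [← h i, ← h i', dotProduct_comm, hcomp S h1, dotProduct_comm]

end Pool.Agent.D0H22.JT
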